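import Pool.Agent.W719.BS.Stubs
import Pool.Agent.H345J.Tasks
import Pool.Agent.H667J.Hex12
import Pool.Agent.H22R3.J.Nat
import Pool.Agent.H973R3.J.TaskSchur
import Pool.Agent.H623R3.J.TW
import Pool.Agent.H559R3.J.Cross
import Pool.Agent.H550R3.Jones.Ptr

/-! # The scalar of the belt -/

set_option autoImplicit false
set_option linter.unusedSectionVars false

namespace Pool.Agent.W466.BS

open Matrix Finset Pool.Agent.H550R3.Jones Pool.Agent.W719.BS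
open scoped Kronecker

section

variable {ι κ μ : Type} [Fintype ι] [DecidableEq ι] [Fintype κ] [DecidableEq κ]
  [Fintype μ] [DecidableEq μ]

theorem isInt_comp {M : WM ι} {M' : WM κ} {M'' : WM μ} {A : Matrix κ ι ℂ} {B : Matrix μ κ ℂ}
    (hB : IsInt M' M'' B) (hA : IsInt M M' A) : IsInt M M'' (B * A) where
  e := by rw [Matrix.mul_assoc, hA.e, ← Matrix.mul_assoc, hB.e, Matrix.mul_assoc]
  f := by rw [Matrix.mul_assoc, hA.f, ← Matrix.mul_assoc, hB.f, Matrix.mul_assoc]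
  k := by
    intro i j hij
    rw [Matrix.mul_apply] at hij
    obtain ⟨x, -, hx⟩ := Finset.exists_ne_zero_of_sum_ne_zero hij
    exact (hB.k i x (left_ne_zero_of_mul hx)).trans (hA.k x j (right_ne_zero_of_mul hx))

theorem isInt_id (M : WM ι) : IsInt M M (1 : Matrix ι ι ℂ) where
  e := by rw [Matrix.one_mul, Matrix.mul_one]
  f := by rw [Matrix.one_mul, Matrix.mul_one]
  k := by
    intro i j hij
    by_cases h : i = j
    · rw [h]
    · exact absurd (Matrix.one_apply_ne h) hij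

theorem on12_smul (c : ℂ) (A : Matrix (ι × ι) (ι × ι) ℂ) : on12 (c • A) = c • on12 A := by
  ext p q
  simp only [on12, Matrix.smul_apply, smul_eq_mul]
  split_ifs <;> simp

theorem on23_smul (c : ℂ) (A : Matrix (ι × ι) (ι × ι) ℂ) : on23 (c • A) = c • on23 A := by
  ext p q
  simp only [on23, Matrix.smul_apply, smul_eq_mul]
  split_ifs <;> simp

theorem on12_on23 (A B : Matrix (ι × ι) (ι × ι) ℂ) (l i k i' k' l' : ι) :
    (on12 A * on23 B) (l, (i, k)) (i', (k', l')) = ∑ m, A (l, i) (i', m) * B (m, k) (k', l') := by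
  simp only [Matrix.mul_apply, Fintype.sum_prod_type, on12, on23]
  rw [Finset.sum_eq_single i']
  · refine Finset.sum_congr rfl fun m _ => ?_
    rw [Finset.sum_eq_single k]
    · simp
    · intro b _ hb
      rw [if_neg (Ne.symm hb), zero_mul]
    · intro h; exact absurd (Finset.mem_univ _) h
  · intro b _ hb
    refine Finset.sum_eq_zero fun x _ => Finset.sum_eq_zero fun y _ => ?_
    rw [if_neg hb, mul_zero]
  · intro h; exact absurd (Finset.mem_univ _) h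

theorem on23_on12 (A B : Matrix (ι × ι) (ι × ι) ℂ) (i k l l' i' k' : ι) :
    (on23 A * on12 B) (i, (k, l)) (l', (i', k')) = ∑ m, A (k, l) (m, k') * B (i, m) (l', i') := by
  simp only [Matrix.mul_apply, Fintype.sum_prod_type, on12, on23]
  rw [Finset.sum_eq_single i]
  · refine Finset.sum_congr rfl fun m _ => ?_
    rw [Finset.sum_eq_single k']
    · simp
    · intro b _ hb
      rw [if_neg hb, mul_zero]
    · intro h; exact absurd (Finset.mem_univ _) h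
  · intro b _ hb
    refine Finset.sum_eq_zero fun x _ => Finset.sum_eq_zero fun y _ => ?_
    rw [if_neg (Ne.symm hb), zero_mul]
  · intro h; exact absurd (Finset.mem_univ _) h

end

theorem belt_eq {u : ℂ} (hu : Gen u) (N : ℕ) :
    belt N (u ^ 2) = (u ^ (-((N : ℤ) ^ 2 - 1))) ^ 4 • ptr (Pool.Agent.W719.BS.kw N (u ^ 2))
      (Rh u (irr (u ^ 2) N) (W (u ^ 2) N) * Rh u (W (u ^ 2) N) (irr (u ^ 2) N)) := by
  have hv : u ^ 2 ≠ 0 := pow_ne_zero _ hu.1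
  have hV := (Pool.Agent.H345J.taskMod (u ^ 2) hv).1 N
  have hc := (Pool.Agent.H559R3.J.taskCross u hu N).1
  set c : ℂ := u ^ (-((N : ℤ) ^ 2 - 1)) with hcd
  set S := Rh u (irr (u ^ 2) N) (irr (u ^ 2) N) with hS
  ext p q
  obtain ⟨p1, p2⟩ := p
  obtain ⟨q1, q2⟩ := q
  rw [Matrix.smul_apply, smul_eq_mul]
  unfold belt ptr
  rw [Finset.mul_sum]
  refine Finset.sum_congr rfl fun x _ => ?_
  rw [hc, on12_smul, on23_smul]
  simp only [Matrix.smul_mul, Matrix.mul_smul, smul_smul]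
  rw [Matrix.smul_apply, smul_eq_mul, ← Matrix.mul_assoc]
  have key : (on23 S * on12 S * (on12 S * on23 S)) (p1, (p2, x)) (q1, (q2, x)) =
      (Rh u (irr (u ^ 2) N) (W (u ^ 2) N) * Rh u (W (u ^ 2) N) (irr (u ^ 2) N))
        ((p1, p2), x) ((q1, q2), x) := by
    rw [Matrix.mul_apply, Matrix.mul_apply]
    refine Finset.sum_congr rfl fun a _ => ?_
    obtain ⟨a1, a2, a3⟩ := a
    rw [on23_on12, on12_on23]
    have h1 := Pool.Agent.H667J.taskHex1 u hu (Fin N) (Fin N) (Fin N) (irr (u ^ 2) N)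
      (irr (u ^ 2) N) (irr (u ^ 2) N) hV hV hV a1 a2 a3 q1 q2 x
    have h2 := Pool.Agent.H667J.taskHex2 u hu (Fin N) (Fin N) (Fin N) (irr (u ^ 2) N)
      (irr (u ^ 2) N) (irr (u ^ 2) N) hV hV hV p1 p2 x a1 a2 a3
    unfold W
    rw [h1, h2]
  rw [key]
  ring

/-- the power sum -/
theorem qsum (v : ℂ) (hv : v ≠ 0) (N c : ℕ) :
    br v c * ∑ x : Fin N, v ^ ((c : ℤ) * ((N : ℤ) - 1 - 2 * (x : ℕ))) = br v ((N : ℤ) * c) := by
  rw [Fin.sum_univ_eq_sum_range (fun i : ℕ => v ^ ((c : ℤ) * ((N : ℤ) - 1 - 2 * (i : ℕ)))) N,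
    Finset.mul_sum]
  have h2 : ∀ i ∈ range N, br v c * v ^ ((c : ℤ) * ((N : ℤ) - 1 - 2 * (i : ℤ))) =
      v ^ ((c : ℤ) * ((N : ℤ) - 2 * (i : ℤ))) - v ^ ((c : ℤ) * ((N : ℤ) - 2 * ((i + 1 : ℕ) : ℤ))) := by
    intro i _
    unfold br
    rw [sub_mul, ← zpow_add₀ hv, ← zpow_add₀ hv]
    congr 2
    · ring
    · push_cast; ring
  rw [Finset.sum_congr rfl h2,
    Finset.sum_range_sub' (fun i : ℕ => v ^ ((c : ℤ) * ((N : ℤ) - 2 * (i : ℤ))))]
  unfold br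
  congr 2
  · ring
  · push_cast; ring

theorem E_pow_zero (v : ℂ) {c : ℕ} (hc : 0 < c) (n : ℕ) (hn : 0 < n) (i : Fin c) :
    ((irr v c).E ^ n) i ⟨0, hc⟩ = 0 := by
  obtain ⟨m, rfl⟩ := Nat.exists_eq_succ_of_ne_zero hn.ne'
  rw [pow_succ, Matrix.mul_apply]
  refine Finset.sum_eq_zero fun j _ => ?_
  have h1 : (irr v c).E j ⟨0, hc⟩ = 0 := by
    unfold irr
    simp
  rw [h1, mul_zero]

theorem F_pow_zero (v : ℂ) {c : ℕ} (hc : 0 < c) (n : ℕ) (hn : 0 < n) (i : Fin c) :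
    ((irr v c).F ^ n) ⟨0, hc⟩ i = 0 := by
  obtain ⟨m, rfl⟩ := Nat.exists_eq_succ_of_ne_zero hn.ne'
  rw [pow_succ', Matrix.mul_apply]
  refine Finset.sum_eq_zero fun j _ => ?_
  have h1 : (irr v c).F ⟨0, hc⟩ j = 0 := by
    unfold irr
    simp
  rw [h1, zero_mul]

theorem R_apply (u : ℂ) {ι κ : Type} [Fintype ι] [DecidableEq ι] [Fintype κ] [DecidableEq κ]
    (M : WM ι) (N : WM κ) (i i' : ι) (k k' : κ) :
    R u M N (i, k) (i', k') = u ^ (M.wt i * N.wt k) * ∑ n ∈ range (nb M),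
      ((u ^ 2) ^ (n * (n - 1) / 2) / brf (u ^ 2) n) * ((M.E ^ n) i i' * (N.F ^ n) k k') := by
  unfold R
  rw [Matrix.diagonal_mul, Matrix.sum_apply]
  rfl

theorem R_zero_left (u : ℂ) (N c : ℕ) (hc : 0 < c) (i : Fin c) (y x : Fin N) :
    R u (irr (u ^ 2) c) (irr (u ^ 2) N) (i, y) (⟨0, hc⟩, x) =
      if i = ⟨0, hc⟩ ∧ y = x then u ^ (((c : ℤ) - 1) * ((N : ℤ) - 1 - 2 * (x : ℕ))) else 0 := by
  rw [R_apply, Finset.sum_eq_single 0]
  · have h0 : ((u ^ 2) ^ (0 * (0 - 1) / 2) / brf (u ^ 2) 0 : ℂ) = 1 := by simp [brf]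
    rw [h0, one_mul, pow_zero, pow_zero]
    by_cases h1 : i = ⟨0, hc⟩
    · by_cases h2 : y = x
      · subst h1; subst h2
        rw [Matrix.one_apply_eq, Matrix.one_apply_eq, if_pos ⟨rfl, rfl⟩, mul_one, mul_one]
        congr 1
        show ((c : ℤ) - 1 - 2 * ((0 : ℕ) : ℤ)) * ((N : ℤ) - 1 - 2 * (y : ℕ)) = _
        push_cast; ring
      · rw [if_neg (fun h => h2 h.2), Matrix.one_apply_ne h2, mul_zero, mul_zero]
    · rw [if_neg (fun h => h1 h.1), Matrix.one_apply_ne h1, zero_mul, mul_zero]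
  · intro n _ hn
    rw [E_pow_zero _ hc n (Nat.pos_of_ne_zero hn), zero_mul, mul_zero]
  · intro h
    exact absurd (Finset.mem_range.2 (Nat.succ_pos _)) h

theorem R_zero_right (u : ℂ) (N c : ℕ) (hc : 0 < c) (x : Fin N) :
    R u (irr (u ^ 2) N) (irr (u ^ 2) c) (x, ⟨0, hc⟩) (x, ⟨0, hc⟩) =
      u ^ (((c : ℤ) - 1) * ((N : ℤ) - 1 - 2 * (x : ℕ))) := by
  rw [R_apply, Finset.sum_eq_single 0]
  · have h0 : ((u ^ 2) ^ (0 * (0 - 1) / 2) / brf (u ^ 2) 0 : ℂ) = 1 := by simp [brf]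
    rw [h0, one_mul, pow_zero, pow_zero, Matrix.one_apply_eq, Matrix.one_apply_eq, mul_one,
      mul_one]
    congr 1
    show ((N : ℤ) - 1 - 2 * (x : ℕ)) * ((c : ℤ) - 1 - 2 * ((0 : ℕ) : ℤ)) = _
    push_cast; ring
  · intro n _ hn
    rw [F_pow_zero _ hc n (Nat.pos_of_ne_zero hn), mul_zero, mul_zero]
  · intro h
    exact absurd (Finset.mem_range.2 (Nat.succ_pos _)) h

/-- the full twist of `V_c` and `V_N`, entry at `e_0 ⊗ e_x` -/
theorem full_entry (u : ℂ) (N c : ℕ) (hc : 0 < c) (x : Fin N) :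
    (Rh u (irr (u ^ 2) N) (irr (u ^ 2) c) * Rh u (irr (u ^ 2) c) (irr (u ^ 2) N))
      (⟨0, hc⟩, x) (⟨0, hc⟩, x) = u ^ (((c : ℤ) - 1) * ((N : ℤ) - 1 - 2 * (x : ℕ))) *
        u ^ (((c : ℤ) - 1) * ((N : ℤ) - 1 - 2 * (x : ℕ))) := by
  rw [Matrix.mul_apply, Finset.sum_eq_single (x, ⟨0, hc⟩)]
  · congr 1
    · exact R_zero_right u N c hc x
    · show R u (irr (u ^ 2) c) (irr (u ^ 2) N) (⟨0, hc⟩, x) (⟨0, hc⟩, x) = _
      rw [R_zero_left, if_pos ⟨rfl, rfl⟩]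
  · rintro ⟨y, i⟩ _ hne
    have h1 : Rh u (irr (u ^ 2) c) (irr (u ^ 2) N) (y, i) (⟨0, hc⟩, x) = 0 := by
      show R u (irr (u ^ 2) c) (irr (u ^ 2) N) (i, y) (⟨0, hc⟩, x) = _
      rw [R_zero_left, if_neg]
      rintro ⟨h2, h3⟩
      exact hne (by rw [h2, h3])
    rw [h1, mul_zero]
  · intro h; exact absurd (Finset.mem_univ _) h

theorem ptr_eq {ι κ : Type} [Fintype ι] [DecidableEq ι] [Fintype κ] [DecidableEq κ] (k : κ → ℂ)
    (A : Matrix (ι × κ) (ι × κ) ℂ) : ptr k A = Pool.Agent.H623R3.J.rptr k A := rfl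

theorem belt : S_BELT := by
  intro u hu N φ ψ hD d
  have hv : u ^ 2 ≠ 0 := pow_ne_zero _ hu.1
  have hMod := Pool.Agent.H345J.taskMod (u ^ 2) hv
  have hV := hMod.1 N
  have hc : 0 < cc N d := by unfold cc; have := d.2; omega
  have hV' := hMod.1 (cc N d)
  have hW : IsMod (u ^ 2) (W (u ^ 2) N) := hMod.2 _ _ _ _ hV hV
  have hInt := Pool.Agent.H345J.taskInt u hu
  have hNat := Pool.Agent.H22R3.J.taskNat Pool.Agent.H345J.taskInv u hu
  have n1 := (hNat (Fin (cc N d)) (Fin N) (Fin N × Fin N) (Fin N) (irr (u ^ 2) (cc N d))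
    (irr (u ^ 2) N) (W (u ^ 2) N) (irr (u ^ 2) N) hV' hV hW hV (φ d) 1 (hD.phi d)
    (isInt_id _)).1
  have n2 := (hNat (Fin N) (Fin (cc N d)) (Fin N) (Fin N × Fin N) (irr (u ^ 2) N)
    (irr (u ^ 2) (cc N d)) (irr (u ^ 2) N) (W (u ^ 2) N) hV hV' hV hW 1 (φ d)
    (isInt_id _) (hD.phi d)).1
  -- the belt on the summand
  have h1 : ptr (Pool.Agent.W719.BS.kw N (u ^ 2)) (Rh u (irr (u ^ 2) N) (W (u ^ 2) N) *
      Rh u (W (u ^ 2) N) (irr (u ^ 2) N)) * φ d = φ d * ptr (Pool.Agent.W719.BS.kw N (u ^ 2))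
      (Rh u (irr (u ^ 2) N) (irr (u ^ 2) (cc N d)) *
        Rh u (irr (u ^ 2) (cc N d)) (irr (u ^ 2) N)) := by
    rw [ptr_eq, ptr_eq, Pool.Agent.H623R3.J.rptr_mul_right, Pool.Agent.H623R3.J.rptr_mul_left,
      Matrix.mul_assoc, n1, ← Matrix.mul_assoc, n2, Matrix.mul_assoc]
  -- the scalar
  have i1 := hInt _ _ (irr (u ^ 2) N) (irr (u ^ 2) (cc N d)) hV hV'
  have i2 := hInt _ _ (irr (u ^ 2) (cc N d)) (irr (u ^ 2) N) hV' hV
  have hp := taskPtr550 (u ^ 2) hv _ _ _ _ hV' hV _ (isInt_comp i1 i2)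
  obtain ⟨a, ha⟩ := Pool.Agent.H973J.taskSchur u hu (cc N d) _ hp
  have hk : (fun x => (u ^ 2) ^ (irr (u ^ 2) N).wt x) = Pool.Agent.W719.BS.kw N (u ^ 2) := rfl
  rw [hk] at ha
  have ha0 : a = ∑ x : Fin N, (u ^ 2) ^ (((cc N d : ℕ) : ℤ) * ((N : ℤ) - 1 - 2 * (x : ℕ))) := by
    have e0 := congrFun (congrFun ha ⟨0, hc⟩) ⟨0, hc⟩
    rw [Matrix.smul_apply, Matrix.one_apply_eq, smul_eq_mul, mul_one] at e0
    rw [← e0]
    unfold ptr
    refine Finset.sum_congr rfl fun x _ => ?_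
    rw [full_entry, ← mul_zpow, ← pow_two]
    unfold Pool.Agent.W719.BS.kw
    rw [← zpow_add₀ hv]
    congr 1
    ring
  have hq := qsum (u ^ 2) hv N (cc N d)
  rw [← ha0] at hq
  rw [belt_eq hu, Matrix.smul_mul, h1, ha, Matrix.mul_smul, Matrix.mul_one, smul_smul, smul_smul,
    ← hq]
  congr 1
  have e1 : (u ^ 2) ^ (2 * ((N : ℤ) ^ 2 - 1)) * (u ^ (-((N : ℤ) ^ 2 - 1))) ^ 4 = 1 := by
    rw [← zpow_natCast u 2, ← zpow_natCast (u ^ (-((N : ℤ) ^ 2 - 1))) 4, ← _root_.zpow_mul, ← _root_.zpow_mul,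
      ← zpow_add₀ hu.1]
    have : ((2 : ℕ) : ℤ) * (2 * ((N : ℤ) ^ 2 - 1)) + -((N : ℤ) ^ 2 - 1) * ((4 : ℕ) : ℤ) = 0 := by
      push_cast; ring
    rw [this, zpow_zero]
  linear_combination (br (u ^ 2) (cc N d) * a) * e1

end Pool.Agent.W466.BS
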